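import Pool.Agent.VPC.Low
import Pool.Agent.VPN.FinalC

/-!
# The third world: the generic oracle
-/

set_option autoImplicit false

open Finset Pool.Agent.VPO Pool.Agent.VPE Pool.Agent.VPN

namespace Pool.Agent.VPC

variable {k : Type} [Field k] {n : ℕ}

/-- the points where the oracle polynomial is evaluated: `x`, and `y` with the last coordinate `0` -/
noncomputable def pt (k : Type) [Field k] (n : ℕ) : Fin (n + n) → MvPolynomial (Fin (n + (n - 1))) k :=
  Fin.append (fun j => MvPolynomial.X (Fin.castAdd (n - 1) j))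
    fun j => if h : (j : ℕ) < n - 1 then MvPolynomial.X (Fin.natAdd n ⟨j, h⟩) else MvPolynomial.C 0

/-- the oracle polynomial with the last `y_j` equal to `0` -/
noncomputable def hs (c : Ix n → k) : MvPolynomial (Fin (n + (n - 1))) k := MvPolynomial.aeval (pt k n) (opoly c)

theorem totalDegree_hs_le (c : Ix n → k) : (hs c).totalDegree ≤ 3 * n := by
  unfold hs
  rw [aeval_opoly]
  refine MvPolynomial.totalDegree_finsetSum_le ?_
  intro i _
  refine (MvPolynomial.totalDegree_mul _ _).trans ?_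
  rw [MvPolynomial.algebraMap_eq, MvPolynomial.totalDegree_C, zero_add]
  refine (MvPolynomial.totalDegree_mul _ _).trans ?_
  have h1 := totalDegree_mon_le 1 (le_refl _) (fun j => pt k n (Fin.castAdd n j)) (fun j => by
    show (pt k n (Fin.castAdd n j)).totalDegree ≤ 1
    unfold pt
    rw [Fin.append_left]
    exact totalDegree_X_le _) i.1
  have h2 := totalDegree_mon_le 2 (le_refl _) (fun j => pt k n (Fin.natAdd n j)) (fun j => by
    show (pt k n (Fin.natAdd n j)).totalDegree ≤ 1
    unfold pt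
    rw [Fin.append_right]
    split_ifs
    · exact totalDegree_X_le _
    · rw [MvPolynomial.totalDegree_C]
      omega) i.2
  omega

theorem L_hs_le (α : (Σ m, Ix m) → k) (n : ℕ) : L (VPO.orc α) (hs (cof α n)) ≤ 2 * n + 1 := by
  have h1 : Comp (VPO.orc α) (0 + (n + n + 1)) [MvPolynomial.aeval (pt k n) (opoly (cof α n))] :=
    Comp.oracle (G := VPO.orc α) n (pt k n) Comp.nil (by
      intro i
      refine Fin.addCases (fun j => ?_) (fun j => ?_) i
      · show Avail _ (pt k n (Fin.castAdd n j))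
        unfold pt
        rw [Fin.append_left]
        exact Or.inr (Or.inl ⟨_, rfl⟩)
      · show Avail _ (pt k n (Fin.natAdd n j))
        unfold pt
        rw [Fin.append_right]
        split_ifs
        · exact Or.inr (Or.inl ⟨_, rfl⟩)
        · exact Or.inl ⟨_, rfl⟩)
  refine (L_le ⟨_, h1, Or.inr (Or.inr (List.mem_singleton.mpr rfl))⟩).trans (le_of_eq ?_)
  ring

theorem bsum_hs (c : Ix n → k) : bsum (hs c) = ∑ i : Ix n, MvPolynomial.C ((if wt i.2 ≤ wt (one n) then c i else 0) *
    ∑ e : Fin (n - 1) → Fin 2, mon (bp k (ext n e)) i.2) * mon (fun j => MvPolynomial.X j) i.1 := by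
  unfold bsum
  have h : ∀ e : Fin (n - 1) → Fin 2, MvPolynomial.aeval (Fin.append (MvPolynomial.X : Fin n → MvPolynomial (Fin n) k)
      fun j => MvPolynomial.C ((e j : ℕ) : k)) (hs c) =
      ∑ i : Ix n, MvPolynomial.C (if wt i.2 ≤ wt (one n) then c i else 0) *
        (mon (fun j => MvPolynomial.X j) i.1 * MvPolynomial.C (mon (bp k (ext n e)) i.2)) := by
    intro e
    unfold hs
    rw [aeval_opoly, map_sum]
    apply sum_congr rfl
    intro i _
    rw [map_mul, map_mul, aeval_mon, aeval_mon, MvPolynomial.algebraMap_eq, MvPolynomial.aeval_C,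
      MvPolynomial.algebraMap_eq, map_mon (MvPolynomial.C : k →+* MvPolynomial (Fin n) k)]
    congr 2
    · congr 1
      funext j
      unfold pt
      rw [Fin.append_left, MvPolynomial.aeval_X, Fin.append_left]
    · congr 1
      funext j
      unfold pt bp ext
      rw [Fin.append_right]
      split_ifs with h
      · rw [MvPolynomial.aeval_X, Fin.append_right]
      · simp
  rw [sum_congr rfl fun e _ => h e, sum_comm]
  apply sum_congr rfl
  intro i _
  rw [map_mul, map_sum, mul_sum, sum_mul]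
  apply sum_congr rfl
  intro e _
  ring

theorem eval_bsum_hs (c : Ix n → k) (β : Fin n → Fin 2) :
    MvPolynomial.eval (bp k β) (bsum (hs c)) = ∑ i, es k β i * c i := by
  rw [bsum_hs, map_sum]
  apply sum_congr rfl
  intro i _
  rw [map_mul, MvPolynomial.eval_C, map_mon]
  simp only [MvPolynomial.eval_X]
  unfold es
  split_ifs
  · ring
  · ring

theorem totalDegree_bsum_hs_le (c : Ix n → k) : (bsum (hs c)).totalDegree ≤ n := by
  rw [bsum_hs]
  refine MvPolynomial.totalDegree_finsetSum_le ?_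
  intro i _
  refine (MvPolynomial.totalDegree_mul _ _).trans ?_
  rw [MvPolynomial.totalDegree_C, zero_add]
  have h1 := totalDegree_mon_le 1 (le_refl _) (fun j => (MvPolynomial.X j : MvPolynomial (Fin n) k))
    (fun j => totalDegree_X_le _) i.1
  omega

/-- the exponential sums of the oracle polynomials -/
noncomputable def gam (α : (Σ m, Ix m) → k) : PFamily k where
  vars := fun n => n
  poly := fun n => bsum (hs (cof α n))
  vars_bdd := pbounded_of_le 1 fun n => by omega
  deg_bdd := pbounded_of_le 1 fun n => by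
    have := totalDegree_bsum_hs_le (cof α n)
    omega

theorem gam_mem_VNP (α : (Σ m, Ix m) → k) : gam α ∈ VNP (VPO.orc α) := by
  refine ⟨fun n => n - 1, fun n => hs (cof α n), pbounded_of_le 1 fun n => by omega,
    pbounded_of_le 3 fun n => totalDegree_hs_le _, ⟨2 * Polynomial.X + 1, fun n => ?_⟩, fun n => rfl⟩
  refine (L_hs_le α n).trans (le_of_eq ?_)
  simp

theorem val_eval {F : MvPolynomial (Fin n) (RatFunc k)} {f : MvPolynomial (Fin n) k}
    (h : ∀ m, HasValueAtZero (MvPolynomial.coeff m F) (MvPolynomial.coeff m f)) (β : Fin n → Fin 2) :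
    HasValueAtZero (MvPolynomial.eval (bp (RatFunc k) β) F) (MvPolynomial.eval (bp k β) f) := by
  classical
  have h1 : MvPolynomial.eval (bp (RatFunc k) β) F = ∑ d ∈ F.support ∪ f.support,
      MvPolynomial.coeff d F * algebraMap k (RatFunc k) (∏ i ∈ d.support, bp k β i ^ d i) := by
    rw [MvPolynomial.eval_eq]
    refine (sum_subset (s₂ := F.support ∪ f.support) subset_union_left ?_).trans ?_
    · intro d _ hd
      rw [MvPolynomial.notMem_support_iff.1 hd, zero_mul]
    · apply sum_congr rfl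
      intro d _
      rw [map_prod]
      congr 1
      apply prod_congr rfl
      intro i _
      rw [map_pow]
      unfold bp
      rw [map_natCast]
  have h2 : MvPolynomial.eval (bp k β) f = ∑ d ∈ F.support ∪ f.support,
      MvPolynomial.coeff d f * ∏ i ∈ d.support, bp k β i ^ d i := by
    rw [MvPolynomial.eval_eq]
    refine sum_subset subset_union_right ?_
    intro d _ hd
    rw [MvPolynomial.notMem_support_iff.1 hd, zero_mul]
  rw [h1, h2]
  exact val_sum _ _ _ fun d _ => HasValueAtZero.mul (h d) (val_const _)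

theorem Lapp_gam {K0 : Type} [Field K0] [Algebra K0 k] {α : (Σ m, Ix m) → k}
    (hα : AlgebraicIndependent K0 α) (n : ℕ) : 2 ^ n < 4 * (Lapp (VPO.orc α) ((gam α).poly n) + 1) ^ 2 := by
  let D : Set (Σ m, Ix m) := {i | i.1 ≠ n}
  let K1 := IntermediateField.adjoin K0 (α '' D)
  have h1 : AlgebraicIndepOn (Algebra.adjoin K0 (α '' D)) α Dᶜ := ((AlgebraicIndependent.iff_adjoin_image D).1 hα).2
  have h2 : AlgebraicIndependent K1 (fun i : (Dᶜ : Set (Σ m, Ix m)) => α i) :=
    IntermediateField.algebraicIndependent_adjoin_iff.2 h1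
  have h3 : AlgebraicIndependent K1 (cof α n) := by
    refine h2.comp (fun i : Ix n => (⟨⟨n, i⟩, by simp [D]⟩ : (Dᶜ : Set (Σ m, Ix m)))) ?_
    intro i j hij
    have := congrArg (fun x : (Dᶜ : Set (Σ m, Ix m)) => (x : Σ m, Ix m)) hij
    simpa using this
  obtain ⟨F, hF1, hF2⟩ := exists_Lapp (VPO.orc α) ((gam α).poly n)
  refine lowC (K0 := K1) ?_ h3 (fun β => val_eval hF1 β) (fun β => eval_bsum_hs _ β) hF2
  intro m hm i
  exact ⟨⟨α ⟨m, i⟩, IntermediateField.subset_adjoin _ _ ⟨⟨m, i⟩, hm, rfl⟩⟩, rfl⟩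

theorem gam_notMem {K0 : Type} [Field K0] [Algebra K0 k] {α : (Σ m, Ix m) → k}
    (hα : AlgebraicIndependent K0 α) : gam α ∉ VPbar (VPO.orc α) := by
  rintro ⟨p, hp⟩
  obtain ⟨n, hn⟩ := exists_lt_two_pow (2 * p + 1)
  have h1 := Lapp_gam hα n
  have h2 := hp n
  have h3 : 4 * (Lapp (VPO.orc α) ((gam α).poly n) + 1) ^ 2 ≤ 4 * (p.eval n + 1) ^ 2 :=
    Nat.mul_le_mul_left _ (Nat.pow_le_pow_left (Nat.succ_le_succ h2) 2)
  have h4 : (2 * p + 1).eval n = 2 * p.eval n + 1 := by simp
  rw [h4] at hn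
  nlinarith

theorem third (k : Type) [Field k]
    (hk : Uncountable k ∨ ∃ (K0 : Subfield k) (x : ℕ → k), AlgebraicIndependent K0 x) :
    ∃ G f g : PFamily k,
      (∀ n, G.vars n = 2 * n ∧ (G.poly n).totalDegree ≤ 3 * n ∧ f.vars n = n ∧ (f.poly n).totalDegree ≤ n ∧
        g.vars n = n ∧ (g.poly n).totalDegree ≤ n) ∧
      (∀ n, Lapp G (f.poly n) ≤ 2 * n + 2) ∧
      (∀ n, 2 ^ n < 2 * (L G (f.poly n) + 1) ^ 2) ∧
      g ∈ VNP G ∧
      (∀ n, 2 ^ n < 4 * (Lapp G (g.poly n) + 1) ^ 2) ∧
      VP G ⊂ VPbar G ∧ g ∉ VPbar G := by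
  have key : ∃ (K0 : Subfield k) (α : (Σ m, Ix m) → k), AlgebraicIndependent K0 α := by
    rcases hk with hk | ⟨K0, x, hx⟩
    · obtain ⟨α, hα⟩ := exists_algebraicIndependent k (Σ m, Ix m)
      exact ⟨_, α, hα⟩
    · obtain ⟨g, hg⟩ := exists_injective_nat (Σ m, Ix m)
      exact ⟨K0, x ∘ g, hx.comp g hg⟩
  obtain ⟨K0, α, hα⟩ := key
  refine ⟨VPO.orc α, VPO.fam α, gam α, fun n => ⟨?_, ?_, rfl, ?_, rfl, ?_⟩, fun n => upper α n,
    fun n => separation_bound hα n, gam_mem_VNP α, fun n => Lapp_gam hα n, separation hα, gam_notMem hα⟩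
  · show n + n = 2 * n
    omega
  · exact totalDegree_opoly_le _
  · exact totalDegree_fpoly_le _
  · exact totalDegree_bsum_hs_le _

end Pool.Agent.VPC
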