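import Pool.Agent.VPC.Val

/-!
# [VPC-FUNC] the functional

As VPO/Extract (`exists_functional`) and VPN/LowerB (`exists_relH`), with values at `0`. `m = n - 1`. For `y : Fin m → Fin 2` let `ℓ_y (Y) = ∏ j : Fin m, (w _ (y j) 0 + w _ (y j) 1 * Y_j)` (integer
coefficients; it is `1` at `y` and `0` at the other Boolean points). As `P.card < 2 ^ m` there is `γ : (Fin m → Fin 2) → RatFunc k`, not `0`, with `∑ y, γ y * ℓ_y (p.2) = 0` for `p ∈ P`.
Take `y0` by `exists_max`, so WLOG `γ y0 = 1` and all `γ y` have values `γ' y` at `0`. The polynomial `q = ∑ y, γ y * ℓ_y * ℓ_y0` has exponents at most `2` in the `Y_j`, `j < m`, and `0` in the last variable (so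
`wt b < 3 ^ m ≤ wt (one n)`); its coefficients `q_b = ∑ y, γ y * (integer)` have values `q'_b`; it vanishes at `p.2`, and `∑ y, q' (bp y) = γ' y0 = 1`.
`H (e, b) = (∏ j, w _ (β0 j) (e j)) * q_b` (see `sum_w`, `prod_w` of VPO/Extract).
-/

set_option autoImplicit false

open Finset Pool.Agent.VPO Pool.Agent.VPE

namespace Pool.Agent.VPC

/-- `y` with a `0` added -/
def ext (n : ℕ) (y : Fin (n - 1) → Fin 2) : Fin n → Fin 2 := fun j => if h : (j : ℕ) < n - 1 then y ⟨j, h⟩ else 0

/-- the value at `β` of the sum of the oracle polynomial over `y ∈ {0, 1} ^ (n - 1)`, the last `y_j` being `0`, as a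
linear form in the coefficients -/
def es (F : Type) [Field F] {n : ℕ} (β : Fin n → Fin 2) : Ix n → F := fun i =>
  if wt i.2 ≤ wt (one n) then mon (bp F β) i.1 * ∑ y : Fin (n - 1) → Fin 2, mon (bp F (ext n y)) i.2 else 0

variable {k : Type} [Field k] {n : ℕ}

/-- the integer coefficients of the product of two of the polynomials `ℓ_y` -/
def cI (F : Type) [Field F] {m : ℕ} (y y0 : Fin m → Fin 2) (b : Fin m → Fin 3) : F :=
  ∑ e : Fin m → Fin 2, ∑ e' : Fin m → Fin 2,
    if (∀ j, (b j : ℕ) = (e j : ℕ) + (e' j : ℕ)) then (∏ j, w F (y j) (e j)) * ∏ j, w F (y0 j) (e' j) else 0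

theorem map_w (a c : Fin 2) : algebraMap k (RatFunc k) (w k a c) = w (RatFunc k) a c := by
  unfold w
  split_ifs <;> simp

theorem map_cI {m : ℕ} (y y0 : Fin m → Fin 2) (b : Fin m → Fin 3) :
    algebraMap k (RatFunc k) (cI k y y0 b) = cI (RatFunc k) y y0 b := by
  unfold cI
  rw [map_sum]
  apply sum_congr rfl
  intro e _
  rw [map_sum]
  apply sum_congr rfl
  intro e' _
  split_ifs
  · rw [map_mul, map_prod, map_prod]
    simp only [map_w]
  · rw [map_zero]

theorem sum_cI {F : Type} [Field F] {m : ℕ} (y y0 : Fin m → Fin 2) (Y : Fin m → F) :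
    ∑ b, cI F y y0 b * mon Y b =
      (∏ j, (w F (y j) 0 + w F (y j) 1 * Y j)) * ∏ j, (w F (y0 j) 0 + w F (y0 j) 1 * Y j) := by
  classical
  have hlt : ∀ (e e' : Fin m → Fin 2) (j : Fin m), (e j : ℕ) + (e' j : ℕ) < 3 := by
    intro e e' j
    have h1 := (e j).2
    have h2 := (e' j).2
    omega
  let sh : (Fin m → Fin 2) → (Fin m → Fin 2) → (Fin m → Fin 3) := fun e e' j =>
    ⟨(e j : ℕ) + (e' j : ℕ), hlt e e' j⟩
  have hsh : ∀ e e' b, (∀ j, (b j : ℕ) = (e j : ℕ) + (e' j : ℕ)) ↔ sh e e' = b := by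
    intro e e' b
    constructor
    · intro h
      funext j
      exact Fin.ext (h j).symm
    · rintro rfl j
      rfl
  have hmon : ∀ e e', mon Y (sh e e') = mon Y e * mon Y e' := by
    intro e e'
    unfold mon
    rw [← prod_mul_distrib]
    apply prod_congr rfl
    intro j _
    rw [← pow_add]
  rw [← sum_w, ← sum_w]
  have h1 : ∀ b, cI F y y0 b * mon Y b = ∑ e, ∑ e', if sh e e' = b then
      (∏ j, w F (y j) (e j)) * (∏ j, w F (y0 j) (e' j)) * mon Y b else 0 := by
    intro b
    unfold cI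
    rw [sum_mul]
    apply sum_congr rfl
    intro e _
    rw [sum_mul]
    apply sum_congr rfl
    intro e' _
    simp only [hsh]
    split_ifs <;> simp
  rw [sum_congr rfl fun b _ => h1 b, sum_comm, sum_mul_sum]
  apply sum_congr rfl
  intro e _
  rw [sum_comm]
  apply sum_congr rfl
  intro e' _
  rw [sum_ite_eq, if_pos (mem_univ _), hmon]
  ring

/-- as `exists_relH`, with values at `0` -/
theorem exists_relV {m : ℕ} (P : Finset (Fin m → RatFunc k)) (hP : P.card < 2 ^ m) :
    ∃ (f : (Fin m → Fin 3) → RatFunc k) (f' : (Fin m → Fin 3) → k),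
      (∀ b, HasValueAtZero (f b) (f' b)) ∧ (∀ Y ∈ P, ∑ b, f b * mon Y b = 0) ∧
      ∑ y : Fin m → Fin 2, ∑ b, f' b * mon (bp k y) b = 1 := by
  classical
  let Λ : ((Fin m → Fin 2) → RatFunc k) →ₗ[RatFunc k] (P → RatFunc k) :=
    { toFun := fun c Y => ∑ y, c y * ∏ j, (w (RatFunc k) (y j) 0 +
        w (RatFunc k) (y j) 1 * (Y : Fin m → RatFunc k) j)
      map_add' := by
        intro c d
        funext Y
        simp only [Pi.add_apply, add_mul, sum_add_distrib]
      map_smul' := by
        intro a c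
        funext Y
        simp only [Pi.smul_apply, smul_eq_mul, RingHom.id_apply, mul_sum, mul_assoc] }
  have hker : LinearMap.ker Λ ≠ ⊥ := by
    apply LinearMap.ker_ne_bot_of_finrank_lt
    rw [Module.finrank_fintype_fun_eq_card, Module.finrank_fintype_fun_eq_card]
    simpa using hP
  obtain ⟨c, hc, hne⟩ := Submodule.exists_mem_ne_zero_of_ne_bot hker
  have hne' : ∃ y ∈ (univ : Finset (Fin m → Fin 2)), c y ≠ 0 := by
    by_contra hcon
    push Not at hcon
    exact hne (funext fun y => hcon y (mem_univ y))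
  obtain ⟨y0, -, hy0, hq⟩ := exists_max univ c hne'
  have hq' : ∀ y, ∃ d : k, HasValueAtZero (c y / c y0) d := fun y => hq y (mem_univ y)
  choose d hd using hq'
  have hd0 : d y0 = 1 := by
    have h1 := hd y0
    rw [div_self hy0] at h1
    have h2 : HasValueAtZero (1 : RatFunc k) (1 : k) := by
      have := val_const (1 : k)
      rwa [map_one] at this
    exact HasValueAtZero.unique h1 h2
  have hsum : ∀ {F : Type} [Field F] (g : (Fin m → Fin 2) → F) (Y : Fin m → F),
      ∑ b, (∑ y, g y * cI F y y0 b) * mon Y b =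
        (∑ y, g y * ∏ j, (w F (y j) 0 + w F (y j) 1 * Y j)) *
          ∏ j, (w F (y0 j) 0 + w F (y0 j) 1 * Y j) := by
    intro F _ g Y
    have h1 : ∀ b, (∑ y, g y * cI F y y0 b) * mon Y b = ∑ y, g y * (cI F y y0 b * mon Y b) := by
      intro b
      rw [sum_mul]
      apply sum_congr rfl
      intro y _
      ring
    rw [sum_congr rfl fun b _ => h1 b, sum_comm, sum_mul]
    apply sum_congr rfl
    intro y _
    rw [← mul_sum, sum_cI]
    ring
  refine ⟨fun b => ∑ y, c y / c y0 * cI (RatFunc k) y y0 b, fun b => ∑ y, d y * cI k y y0 b, ?_, ?_, ?_⟩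
  · intro b
    apply val_sum
    intro y _
    refine HasValueAtZero.mul (hd y) ?_
    rw [← map_cI]
    exact val_const _
  · intro Y hY
    rw [hsum]
    have h0 : ∑ y, c y * ∏ j, (w (RatFunc k) (y j) 0 + w (RatFunc k) (y j) 1 * Y j) = 0 :=
      congrFun (LinearMap.mem_ker.1 hc) ⟨Y, hY⟩
    have h1 : ∑ y, c y / c y0 * ∏ j, (w (RatFunc k) (y j) 0 + w (RatFunc k) (y j) 1 * Y j) =
        (∑ y, c y * ∏ j, (w (RatFunc k) (y j) 0 + w (RatFunc k) (y j) 1 * Y j)) / c y0 := by
      rw [sum_div]
      apply sum_congr rfl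
      intro y _
      ring
    rw [h1, h0, zero_div, zero_mul]
  · have h1 : ∀ z : Fin m → Fin 2, ∑ b, (∑ y, d y * cI k y y0 b) * mon (bp k z) b =
        if z = y0 then d y0 else 0 := by
      intro z
      rw [hsum]
      simp only [prod_w]
      by_cases hz : z = y0
      · rw [if_pos hz, if_pos hz, mul_one, hz]
        simp
      · rw [if_neg hz, if_neg hz, mul_zero]
    rw [sum_congr rfl fun z _ => h1 z, sum_ite_eq', if_pos (mem_univ _), hd0]

theorem wt_lt {m : ℕ} (b : Fin m → Fin 3) : wt b < 3 ^ m := by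
  induction m with
  | zero => simp [wt]
  | succ m ih =>
    have h1 : ∑ j : Fin m, ((b j.castSucc : Fin 3) : ℕ) * 3 ^ (j : ℕ) < 3 ^ m :=
      ih fun j => b j.castSucc
    unfold wt
    rw [Fin.sum_univ_castSucc]
    simp only [Fin.val_castSucc, Fin.val_last]
    have h2 : ((b (Fin.last m) : Fin 3) : ℕ) ≤ 2 := by
      have := (b (Fin.last m)).2
      omega
    have h3 : ((b (Fin.last m) : Fin 3) : ℕ) * 3 ^ m ≤ 2 * 3 ^ m := Nat.mul_le_mul_right _ h2
    rw [pow_succ]
    omega

theorem wt_le_one {m : ℕ} {b : Fin (m + 1) → Fin 3} (hb : b (Fin.last m) = 0) :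
    wt b ≤ wt (one (m + 1)) := by
  have h1 : wt b < 3 ^ m := by
    have h2 := wt_lt fun j : Fin m => b j.castSucc
    unfold wt at h2 ⊢
    rw [Fin.sum_univ_castSucc, hb]
    simpa using h2
  have h3 : 3 ^ m ≤ wt (one (m + 1)) := by
    unfold wt
    rw [Fin.sum_univ_castSucc]
    have h4 : ((one (m + 1) (Fin.last m) : Fin 3) : ℕ) = 1 := rfl
    rw [h4, one_mul, Fin.val_last]
    exact Nat.le_add_left _ _
  omega

/-- a linear form in fewer variables -/
def lft {F : Type} [Field F] {m : ℕ} (f : (Fin m → Fin 3) → F) (b : Fin (m + 1) → Fin 3) : F :=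
  if b (Fin.last m) = 0 then f fun j => b j.castSucc else 0

theorem sum_lft {F : Type} [Field F] {m : ℕ} (f : (Fin m → Fin 3) → F) (Y : Fin (m + 1) → F) :
    ∑ b, lft f b * mon Y b = ∑ b, f b * mon (fun j => Y j.castSucc) b := by
  rw [← (Fin.snocEquiv (fun _ : Fin (m + 1) => Fin 3)).sum_comp, Fintype.sum_prod_type,
    sum_eq_single (0 : Fin 3)]
  · apply sum_congr rfl
    intro b _
    have h1 : lft f ((Fin.snocEquiv fun _ : Fin (m + 1) => Fin 3) (0, b)) = f b := by
      unfold lft
      simp [Fin.snocEquiv]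
    have h2 : mon Y ((Fin.snocEquiv fun _ : Fin (m + 1) => Fin 3) (0, b)) =
        mon (fun j => Y j.castSucc) b := by
      unfold mon
      rw [Fin.prod_univ_castSucc]
      simp [Fin.snocEquiv]
    rw [h1, h2]
  · intro a _ ha
    apply sum_eq_zero
    intro b _
    have h1 : lft f ((Fin.snocEquiv fun _ : Fin (m + 1) => Fin 3) (a, b)) = 0 := by
      unfold lft
      rw [if_neg]
      simpa [Fin.snocEquiv] using ha
    rw [h1, zero_mul]
  · intro h
    exact absurd (mem_univ _) h

theorem exists_H (P : Finset ((Fin n → RatFunc k) × (Fin n → RatFunc k))) (hP : P.card < 2 ^ (n - 1))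
    (β0 : Fin n → Fin 2) :
    ∃ (H : Ix n → RatFunc k) (H' : Ix n → k), (∀ i, HasValueAtZero (H i) (H' i)) ∧
      (∀ p ∈ P, ∑ i, H i * nd p i = 0) ∧
      ∀ β, ∑ i, H' i * es k β i = if β = β0 then 1 else 0 := by
  classical
  cases n with
  | zero =>
    refine ⟨fun _ => 1, fun _ => 1, fun i => ?_, ?_, ?_⟩
    · have := val_const (1 : k)
      rwa [map_one] at this
    · intro p hp
      have h1 : P.card = 0 := by
        simpa using hP
      rw [card_eq_zero] at h1
      rw [h1] at hp
      exact absurd hp (notMem_empty p)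
    · intro β
      rw [if_pos (Subsingleton.elim β β0)]
      simp [es, mon, wt]
  | succ m =>
    obtain ⟨f, f', hf, hf1, hf2⟩ := exists_relV (m := m) (P.image fun p j => p.2 (Fin.castSucc j))
      (lt_of_le_of_lt card_image_le hP)
    refine ⟨fun i => (∏ j, w (RatFunc k) (β0 j) (i.1 j)) * lft f i.2,
      fun i => (∏ j, w k (β0 j) (i.1 j)) * lft f' i.2, ?_, ?_, ?_⟩
    · intro i
      apply HasValueAtZero.mul
      · have h1 : ∏ j, w (RatFunc k) (β0 j) (i.1 j) =
            algebraMap k (RatFunc k) (∏ j, w k (β0 j) (i.1 j)) := by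
          rw [map_prod]
          simp only [map_w]
        rw [h1]
        exact val_const _
      · unfold lft
        split_ifs
        · exact hf _
        · have := val_const (0 : k)
          rwa [map_zero] at this
    · rintro ⟨X, Y⟩ hp
      have h1 : ∑ i : Ix (m + 1), (∏ j, w (RatFunc k) (β0 j) (i.1 j)) * lft f i.2 * nd (X, Y) i =
          (∑ e, (∏ j, w (RatFunc k) (β0 j) (e j)) * mon X e) * ∑ b, lft f b * mon Y b := by
        rw [sum_mul_sum, Fintype.sum_prod_type]
        apply sum_congr rfl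
        intro e _
        apply sum_congr rfl
        intro b _
        unfold nd ev lft
        dsimp only
        split_ifs with h2 h3
        · ring
        · exact absurd (wt_le_one h2) h3
        · ring
        · ring
      rw [h1, sum_lft, hf1 _ (mem_image_of_mem _ hp), mul_zero]
    · intro β
      have h1 : ∑ i : Ix (m + 1), (∏ j, w k (β0 j) (i.1 j)) * lft f' i.2 * es k β i =
          (∑ e, (∏ j, w k (β0 j) (e j)) * mon (bp k β) e) *
            ∑ b, lft f' b * ∑ y : Fin m → Fin 2, mon (bp k (ext (m + 1) y)) b := by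
        rw [sum_mul_sum, Fintype.sum_prod_type]
        apply sum_congr rfl
        intro e _
        apply sum_congr rfl
        intro b _
        unfold es lft
        dsimp only
        split_ifs with h2 h3
        · show _ = _ * (_ * ∑ y : Fin (m + 1 - 1) → Fin 2, mon (bp k (ext (m + 1) y)) b)
          ring
        · exact absurd (wt_le_one h2) h3
        · ring
        · ring
      rw [h1, sum_w, prod_w]
      have h2 : ∑ b, lft f' b * ∑ y : Fin m → Fin 2, mon (bp k (ext (m + 1) y)) b = 1 := by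
        rw [← hf2]
        have h3 : ∀ b, lft f' b * ∑ y : Fin m → Fin 2, mon (bp k (ext (m + 1) y)) b =
            ∑ y : Fin m → Fin 2, lft f' b * mon (bp k (ext (m + 1) y)) b := fun b => mul_sum _ _ _
        rw [sum_congr rfl fun b _ => h3 b, sum_comm]
        apply sum_congr rfl
        intro y _
        rw [sum_lft]
        apply sum_congr rfl
        intro b _
        congr 2
        funext j
        unfold bp ext
        simp
      rw [h2, mul_one]

end Pool.Agent.VPC
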