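import Pool.Agent.VPC.Val

/-!
# [VPC-RED] reduction of a space at `0`

Induction on `Q`: the state is a finite set `B` of pivots and vectors `φ b` (`b ∈ B`), all `RatV E c`, in the span of the vectors so far, spanning them, with all entries defined
at `0`, and `φ b b' = if b = b' then 1 else 0` on the pivots. A new vector `v` is reduced, `v' = v - ∑ b, v b • φ b`, and, if it is not `0`, divided by the entry for which all
quotients are defined at `0` (`exists_max`); this gives the new vector and its pivot.
-/

set_option autoImplicit false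

open Finset Pool.Agent.VPO Pool.Agent.VPE

namespace Pool.Agent.VPC

variable {k : Type} [Field k] {K0 : Type} [Field K0] [Algebra K0 (RatFunc k)] {ι : Type} [Fintype ι] [DecidableEq ι]

omit [DecidableEq ι] in
theorem ratV_add {E : IntermediateField K0 (RatFunc k)} {c v w : ι → RatFunc k} (hv : RatV E c v) (hw : RatV E c w) :
    RatV E c (v + w) := by
  refine ⟨fun i => E.add_mem (hv.1 i) (hw.1 i), ?_⟩
  have : ∑ i, (v + w) i * c i = ∑ i, v i * c i + ∑ i, w i * c i := by
    rw [← sum_add_distrib]
    exact sum_congr rfl fun i _ => by rw [Pi.add_apply, add_mul]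
  rw [this]
  exact E.add_mem hv.2 hw.2

omit [DecidableEq ι] in
theorem ratV_smul {E : IntermediateField K0 (RatFunc k)} {c v : ι → RatFunc k} {x : RatFunc k} (hx : x ∈ E)
    (hv : RatV E c v) : RatV E c (x • v) := by
  refine ⟨fun i => E.mul_mem hx (hv.1 i), ?_⟩
  have : ∑ i, (x • v) i * c i = x * ∑ i, v i * c i := by
    rw [mul_sum]
    exact sum_congr rfl fun i _ => by rw [Pi.smul_apply, smul_eq_mul, mul_assoc]
  rw [this]
  exact E.mul_mem hx hv.2

omit [DecidableEq ι] in
theorem ratV_zero {E : IntermediateField K0 (RatFunc k)} {c : ι → RatFunc k} : RatV E c 0 := by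
  refine ⟨fun i => E.zero_mem, ?_⟩
  have : ∑ i, (0 : ι → RatFunc k) i * c i = 0 := sum_eq_zero fun i _ => by rw [Pi.zero_apply, zero_mul]
  rw [this]
  exact E.zero_mem

omit [DecidableEq ι] in
theorem ratV_sum {E : IntermediateField K0 (RatFunc k)} {c : ι → RatFunc k} {J : Type} (s : Finset J)
    (f : J → ι → RatFunc k) (h : ∀ j ∈ s, RatV E c (f j)) : RatV E c (∑ j ∈ s, f j) := by
  classical
  induction s using Finset.induction_on with
  | empty => rw [sum_empty]; exact ratV_zero
  | insert a s ha ih =>
    rw [sum_insert ha]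
    exact ratV_add (h a (mem_insert_self a s)) (ih fun j hj => h j (mem_insert_of_mem hj))

theorem val_zero' : HasValueAtZero (0 : RatFunc k) 0 := by
  have h := val_const (0 : k)
  rwa [map_zero] at h

theorem val_one' : HasValueAtZero (1 : RatFunc k) 1 := by
  have h := val_const (1 : k)
  rwa [map_one] at h

theorem val_sub {x y : RatFunc k} {a b : k} (hx : HasValueAtZero x a) (hy : HasValueAtZero y b) :
    HasValueAtZero (x - y) (a - b) := by
  have h := Pool.Agent.VPE.HasValueAtZero.add hx (Pool.Agent.VPE.HasValueAtZero.mul (val_const (-1 : k)) hy)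
  have e1 : x + algebraMap k (RatFunc k) (-1) * y = x - y := by
    rw [map_neg, map_one]; ring
  have e2 : a + -1 * b = a - b := by ring
  rwa [e1, e2] at h

/-- the state of the reduction -/
theorem red_aux (E : IntermediateField K0 (RatFunc k)) (c : ι → RatFunc k) {J : Type} (Q : Finset J)
    (f : J → ι → RatFunc k) (hf : ∀ q ∈ Q, RatV E c (f q)) :
    ∃ (B : Finset ι) (φ : ι → ι → RatFunc k),
      Submodule.span (RatFunc k) (f '' Q) ≤ Submodule.span (RatFunc k) (φ '' B) ∧
      (∀ b ∈ B, RatV E c (φ b)) ∧
      (∀ b ∈ B, φ b ∈ Submodule.span (RatFunc k) (f '' Q)) ∧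
      (∀ b ∈ B, ∀ i, ∃ x : k, HasValueAtZero (φ b i) x) ∧
      (∀ b ∈ B, ∀ b' ∈ B, φ b b' = if b = b' then 1 else 0) := by
  classical
  induction Q using Finset.induction_on with
  | empty =>
    refine ⟨∅, fun _ _ => 0, ?_, ?_, ?_, ?_, ?_⟩
    · simp
    all_goals intro b hb; exact absurd hb (notMem_empty b)
  | insert q Q hq ih =>
    obtain ⟨B, φ, h1, h2, h3, h4, h5⟩ := ih fun j hj => hf j (mem_insert_of_mem hj)
    set v : ι → RatFunc k := f q with hv
    have hvR : RatV E c v := hf q (mem_insert_self q Q)
    set w : ι → RatFunc k := v - ∑ b ∈ B, v b • φ b with hw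
    have hspanQ : Submodule.span (RatFunc k) (f '' Q) ≤ Submodule.span (RatFunc k) (f '' (insert q Q : Finset J)) := by
      apply Submodule.span_mono
      apply Set.image_mono
      rw [coe_insert]
      exact Set.subset_insert _ _
    have hvQ : v ∈ Submodule.span (RatFunc k) (f '' (insert q Q : Finset J)) :=
      Submodule.subset_span ⟨q, by rw [coe_insert]; exact Set.mem_insert _ _, rfl⟩
    have hwR : RatV E c w := by
      have : w = v + ∑ b ∈ B, (-v b) • φ b := by
        rw [hw, sub_eq_add_neg, ← sum_neg_distrib]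
        congr 1
        exact sum_congr rfl fun b _ => by rw [neg_smul]
      rw [this]
      exact ratV_add hvR (ratV_sum B _ fun b hb => ratV_smul (E.neg_mem (hvR.1 b)) (h2 b hb))
    have hwQ : w ∈ Submodule.span (RatFunc k) (f '' (insert q Q : Finset J)) :=
      Submodule.sub_mem _ hvQ (Submodule.sum_mem _ fun b hb => Submodule.smul_mem _ _ (hspanQ (h3 b hb)))
    have hwB : ∀ b ∈ B, w b = 0 := by
      intro b hb
      have e1 : (∑ b' ∈ B, v b' • φ b') b = v b := by
        rw [Finset.sum_apply, sum_eq_single b]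
        · rw [Pi.smul_apply, smul_eq_mul, h5 b hb b hb, if_pos rfl, mul_one]
        · intro b' hb' hne
          rw [Pi.smul_apply, smul_eq_mul, h5 b' hb' b hb, if_neg hne, mul_zero]
        · intro h; exact absurd hb h
      rw [hw, Pi.sub_apply, e1, sub_self]
    by_cases hw0 : w = 0
    · refine ⟨B, φ, ?_, h2, fun b hb => hspanQ (h3 b hb), h4, h5⟩
      rw [Submodule.span_le]
      rintro _ ⟨j, hj, rfl⟩
      rw [mem_coe, mem_insert] at hj
      rcases hj with rfl | hj
      · have hv2 : v = ∑ b ∈ B, v b • φ b := by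
          have := sub_eq_zero.mp (hw.symm.trans hw0)
          exact this
        rw [SetLike.mem_coe, ← hv, hv2]
        exact Submodule.sum_mem _ fun b hb => Submodule.smul_mem _ _ (Submodule.subset_span ⟨b, hb, rfl⟩)
      · exact h1 (Submodule.subset_span ⟨j, hj, rfl⟩)
    · have hex : ∃ i ∈ (univ : Finset ι), w i ≠ 0 := by
        by_contra hcon
        push Not at hcon
        exact hw0 (funext fun i => hcon i (mem_univ i))
      obtain ⟨i0, -, hi0, hmax⟩ := exists_max (univ : Finset ι) w hex
      have hi0B : i0 ∉ B := fun h => hi0 (hwB i0 h)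
      set ψ : ι → RatFunc k := (w i0)⁻¹ • w with hψ
      have hψR : RatV E c ψ := ratV_smul (E.inv_mem (hwR.1 i0)) hwR
      have hψQ : ψ ∈ Submodule.span (RatFunc k) (f '' (insert q Q : Finset J)) := Submodule.smul_mem _ _ hwQ
      have hψ0 : ψ i0 = 1 := by rw [hψ, Pi.smul_apply, smul_eq_mul, inv_mul_cancel₀ hi0]
      have hψB : ∀ b ∈ B, ψ b = 0 := by
        intro b hb
        rw [hψ, Pi.smul_apply, hwB b hb, smul_zero]
      have hψv : ∀ i, ∃ x : k, HasValueAtZero (ψ i) x := by
        intro i
        obtain ⟨x, hx⟩ := hmax i (mem_univ i)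
        refine ⟨x, ?_⟩
        rw [hψ, Pi.smul_apply, smul_eq_mul, inv_mul_eq_div]
        exact hx
      have hwψ : w = w i0 • ψ := by
        rw [hψ, smul_smul, mul_inv_cancel₀ hi0, one_smul]
      let φ2 : ι → ι → RatFunc k := fun b => if b = i0 then ψ else φ b - φ b i0 • ψ
      have hφ0 : φ2 i0 = ψ := if_pos rfl
      have hφB : ∀ b ∈ B, φ2 b = φ b - φ b i0 • ψ := fun b hb =>
        if_neg (by rintro rfl; exact hi0B hb)
      have hψ2 : ψ ∈ Submodule.span (RatFunc k) (φ2 '' (insert i0 B : Finset ι)) :=
        Submodule.subset_span ⟨i0, by rw [coe_insert]; exact Set.mem_insert _ _, hφ0⟩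
      have hφ2 : ∀ b ∈ B, φ b ∈ Submodule.span (RatFunc k) (φ2 '' (insert i0 B : Finset ι)) := by
        intro b hb
        have e : φ b = φ2 b + φ b i0 • ψ := by rw [hφB b hb, sub_add_cancel]
        rw [e]
        exact Submodule.add_mem _ (Submodule.subset_span ⟨b, by rw [coe_insert]; exact Set.mem_insert_of_mem _ hb, rfl⟩)
          (Submodule.smul_mem _ _ hψ2)
      refine ⟨insert i0 B, φ2, ?_, ?_, ?_, ?_, ?_⟩
      · rw [Submodule.span_le]
        rintro _ ⟨j, hj, rfl⟩
        rw [mem_coe, mem_insert] at hj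
        rcases hj with rfl | hj
        · have hv2 : v = w + ∑ b ∈ B, v b • φ b := by rw [hw, sub_add_cancel]
          rw [SetLike.mem_coe, ← hv, hv2]
          refine Submodule.add_mem _ ?_ (Submodule.sum_mem _ fun b hb => Submodule.smul_mem _ _ (hφ2 b hb))
          rw [hwψ]
          exact Submodule.smul_mem _ _ hψ2
        · have h6 : Submodule.span (RatFunc k) (φ '' B) ≤ Submodule.span (RatFunc k) (φ2 '' (insert i0 B : Finset ι)) := by
            rw [Submodule.span_le]
            rintro _ ⟨b, hb, rfl⟩
            exact hφ2 b hb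
          exact h6 (h1 (Submodule.subset_span ⟨j, hj, rfl⟩))
      · intro b hb
        rcases mem_insert.mp hb with rfl | hb
        · rw [hφ0]; exact hψR
        · rw [hφB b hb, sub_eq_add_neg, ← neg_smul]
          exact ratV_add (h2 b hb) (ratV_smul (E.neg_mem ((h2 b hb).1 i0)) hψR)
      · intro b hb
        rcases mem_insert.mp hb with rfl | hb
        · rw [hφ0]; exact hψQ
        · rw [hφB b hb]
          exact Submodule.sub_mem _ (hspanQ (h3 b hb)) (Submodule.smul_mem _ _ hψQ)
      · intro b hb i
        rcases mem_insert.mp hb with rfl | hb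
        · rw [hφ0]; exact hψv i
        · obtain ⟨x, hx⟩ := h4 b hb i
          obtain ⟨y, hy⟩ := h4 b hb i0
          obtain ⟨z, hz⟩ := hψv i
          refine ⟨x - y * z, ?_⟩
          rw [hφB b hb]
          exact val_sub hx (Pool.Agent.VPE.HasValueAtZero.mul hy hz)
      · intro b hb b' hb'
        rcases mem_insert.mp hb with hbe | hb
        · rcases mem_insert.mp hb' with hbe' | hb'
          · rw [hbe, hbe', hφ0, hψ0, if_pos rfl]
          · rw [hbe, hφ0, hψB b' hb', if_neg]
            rintro rfl
            exact hi0B hb'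
        · rcases mem_insert.mp hb' with hbe' | hb'
          · have hne : b ≠ i0 := fun h => hi0B (by rw [← h]; exact hb)
            rw [hbe', hφB b hb, if_neg hne]
            rw [Pi.sub_apply, Pi.smul_apply, smul_eq_mul, hψ0, mul_one, sub_self]
          · rw [hφB b hb, Pi.sub_apply, Pi.smul_apply, hψB b' hb', smul_zero, sub_zero]
            exact h5 b hb b' hb'

/-- The span of finitely many vectors with coordinates and values in `E` has a basis of such vectors whose
coordinates are defined at `0` and whose values at `0` are linearly independent; it is indexed by `B`. -/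
theorem exists_reduction (E : IntermediateField K0 (RatFunc k)) (c : ι → RatFunc k) {J : Type} (Q : Finset J)
    (f : J → ι → RatFunc k) (hf : ∀ q ∈ Q, RatV E c (f q)) :
    ∃ (B : Finset ι) (φ : ι → ι → RatFunc k) (φ' : ι → ι → k),
      Module.finrank (RatFunc k) (Submodule.span (RatFunc k) (f '' Q)) ≤ B.card ∧
      (∀ b ∈ B, RatV E c (φ b)) ∧
      (∀ b ∈ B, φ b ∈ Submodule.span (RatFunc k) (f '' Q)) ∧
      (∀ b ∈ B, ∀ i, HasValueAtZero (φ b i) (φ' b i)) ∧
      (∀ b ∈ B, ∀ b' ∈ B, φ' b b' = if b = b' then 1 else 0) := by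
  classical
  obtain ⟨B, φ, h1, h2, h3, h4, h5⟩ := red_aux E c Q f hf
  let φ' : ι → ι → k := fun b i => if h : ∃ x : k, HasValueAtZero (φ b i) x then h.choose else 0
  have hφ' : ∀ b ∈ B, ∀ i, HasValueAtZero (φ b i) (φ' b i) := by
    intro b hb i
    have h := h4 b hb i
    have e : φ' b i = h.choose := dif_pos h
    rw [e]
    exact h.choose_spec
  refine ⟨B, φ, φ', ?_, h2, h3, hφ', ?_⟩
  · refine (Submodule.finrank_mono h1).trans ?_
    have e : (φ '' (B : Set ι)) = ((B.image φ : Finset (ι → RatFunc k)) : Set (ι → RatFunc k)) := by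
      rw [coe_image]
    rw [e]
    exact (finrank_span_finset_le_card _).trans card_image_le
  · intro b hb b' hb'
    have h := hφ' b hb b'
    rw [h5 b hb b' hb'] at h
    split_ifs at h ⊢ with hbb
    · exact Pool.Agent.VPE.HasValueAtZero.unique h val_one'
    · exact Pool.Agent.VPE.HasValueAtZero.unique h val_zero'

end Pool.Agent.VPC
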