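import Pool.Agent.VPE.Lim
import Pool.Agent.VPO.Lower

/-!
# The values at `0` of rational functions

`RatFunc k` with `HasValueAtZero` behaves as a valuation ring: among finitely many rational functions, not all
`0`, there is one by which all can be divided. Algebraic independence of the values implies algebraic
independence.
-/

set_option autoImplicit false

open Finset Pool.Agent.VPO Pool.Agent.VPE

namespace Pool.Agent.VPC

variable {k : Type} [Field k]

theorem val_const (c : k) : HasValueAtZero (algebraMap k (RatFunc k) c) c := by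
  have h1 := hasValueAtZero_algebraMap (Polynomial.C c)
  rw [Polynomial.eval_C] at h1
  exact h1

theorem val_sum {ι : Type} (s : Finset ι) (x : ι → RatFunc k) (c : ι → k)
    (h : ∀ i ∈ s, HasValueAtZero (x i) (c i)) : HasValueAtZero (∑ i ∈ s, x i) (∑ i ∈ s, c i) := by
  classical
  induction s using Finset.induction_on with
  | empty =>
    have h1 := val_const (0 : k)
    rw [map_zero] at h1
    simpa using h1
  | insert a s ha ih =>
    rw [sum_insert ha, sum_insert ha]
    exact HasValueAtZero.add (h a (mem_insert_self _ _)) (ih fun i hi => h i (mem_insert_of_mem hi))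

/-- of two rational functions one divides the other, unless both are `0` -/
theorem val_total (x y : RatFunc k) (hy : y ≠ 0) :
    (∃ c : k, HasValueAtZero (x / y) c) ∨ (x ≠ 0 ∧ ∃ c : k, HasValueAtZero (y / x) c) := by
  by_cases hx : x = 0
  · subst hx
    refine Or.inl ⟨0, ?_⟩
    rw [zero_div]
    have h1 := val_const (0 : k)
    rwa [map_zero] at h1
  obtain ⟨p, q, hq, hpq⟩ : ∃ p q : Polynomial k, q ≠ 0 ∧
      x / y = algebraMap (Polynomial k) (RatFunc k) p / algebraMap (Polynomial k) (RatFunc k) q :=
    ⟨(x / y).num, (x / y).denom, (x / y).denom_ne_zero, (RatFunc.num_div_denom (x / y)).symm⟩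
  have hp : p ≠ 0 := by
    rintro rfl
    rw [map_zero, zero_div] at hpq
    exact div_ne_zero hx hy hpq
  -- remove common powers of `X`
  obtain ⟨p', hp', hp0⟩ := Polynomial.exists_eq_pow_rootMultiplicity_mul_and_not_dvd p hp 0
  obtain ⟨q', hq', hq0⟩ := Polynomial.exists_eq_pow_rootMultiplicity_mul_and_not_dvd q hq 0
  rw [Polynomial.dvd_iff_isRoot, Polynomial.IsRoot.def] at hp0 hq0
  set a := p.rootMultiplicity 0
  set b := q.rootMultiplicity 0
  have hinj : Function.Injective (algebraMap (Polynomial k) (RatFunc k)) := RatFunc.algebraMap_injective k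
  have hX : algebraMap (Polynomial k) (RatFunc k) (Polynomial.X - Polynomial.C 0) ≠ 0 := by
    rw [Ne, map_eq_zero_iff _ hinj, Polynomial.C_0, sub_zero]
    exact Polynomial.X_ne_zero
  have hp'' : algebraMap (Polynomial k) (RatFunc k) p' ≠ 0 := by
    rw [Ne, map_eq_zero_iff _ hinj]
    rintro rfl
    rw [Polynomial.eval_zero] at hp0
    exact hp0 rfl
  have hq'' : algebraMap (Polynomial k) (RatFunc k) q' ≠ 0 := by
    rw [Ne, map_eq_zero_iff _ hinj]
    rintro rfl
    rw [Polynomial.eval_zero] at hq0
    exact hq0 rfl
  rcases le_total b a with hab | hab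
  · refine Or.inl ⟨_, (Polynomial.X - Polynomial.C 0) ^ (a - b) * p', q', hq0, ?_, rfl⟩
    rw [hpq, hp', hq', map_mul, map_mul, map_mul, map_pow, map_pow, map_pow]
    have h1 : a = b + (a - b) := by omega
    conv_lhs => rw [h1, pow_add]
    field_simp
  · refine Or.inr ⟨hx, _, (Polynomial.X - Polynomial.C 0) ^ (b - a) * q', p', hp0, ?_, rfl⟩
    have h2 : y / x = (x / y)⁻¹ := by rw [inv_div]
    rw [h2, hpq, hp', hq', inv_div, map_mul, map_mul, map_mul, map_pow, map_pow, map_pow]
    have h1 : b = a + (b - a) := by omega
    conv_lhs => rw [h1, pow_add]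
    field_simp

/-- among finitely many rational functions, not all `0`, there is one such that all quotients by it are defined
at `0` -/
theorem exists_max {ι : Type} (s : Finset ι) (x : ι → RatFunc k) (h : ∃ i ∈ s, x i ≠ 0) :
    ∃ i0 ∈ s, x i0 ≠ 0 ∧ ∀ i ∈ s, ∃ c : k, HasValueAtZero (x i / x i0) c := by
  classical
  have h1 : HasValueAtZero (1 : RatFunc k) (1 : k) := by
    have h1 := val_const (1 : k)
    rwa [map_one] at h1
  have h0 : HasValueAtZero (0 : RatFunc k) (0 : k) := by
    have h1 := val_const (0 : k)
    rwa [map_zero] at h1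
  induction s using Finset.induction_on with
  | empty =>
    obtain ⟨i, hi, _⟩ := h
    exact absurd hi (notMem_empty _)
  | insert a s ha ih =>
    by_cases hs : ∃ i ∈ s, x i ≠ 0
    · obtain ⟨i0, hi0, hne, hi⟩ := ih hs
      rcases val_total (x a) (x i0) hne with h2 | ⟨h2, c, h3⟩
      · refine ⟨i0, mem_insert_of_mem hi0, hne, fun i hi' => ?_⟩
        rcases mem_insert.1 hi' with rfl | hi'
        · exact h2
        · exact hi i hi'
      · refine ⟨a, mem_insert_self _ _, h2, fun i hi' => ?_⟩
        rcases mem_insert.1 hi' with rfl | hi'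
        · exact ⟨1, by rw [div_self h2]; exact h1⟩
        · obtain ⟨c', h4⟩ := hi i hi'
          refine ⟨c' * c, ?_⟩
          have h5 : x i / x a = (x i / x i0) * (x i0 / x a) := by
            field_simp
          rw [h5]
          exact HasValueAtZero.mul h4 h3
    · push Not at hs
      obtain ⟨i, hi, hne⟩ := h
      rcases mem_insert.1 hi with rfl | hi
      · refine ⟨i, mem_insert_self _ _, hne, fun j hj => ?_⟩
        rcases mem_insert.1 hj with rfl | hj
        · exact ⟨1, by rw [div_self hne]; exact h1⟩
        · exact ⟨0, by rw [hs j hj, zero_div]; exact h0⟩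
      · exact absurd (hs i hi) hne

/-- algebraic independence of the values implies algebraic independence -/
theorem algebraicIndependent_of_value {K0 : Type} [Field K0] [Algebra K0 k] {ι : Type} {y : ι → k}
    {φ : ι → RatFunc k}
    (h : ∀ i, HasValueAtZero (φ i) (y i)) (hy : AlgebraicIndependent K0 y) : AlgebraicIndependent K0 φ := by
  rw [algebraicIndependent_iff] at hy ⊢
  intro p hp
  apply hy
  have key : HasValueAtZero (MvPolynomial.aeval φ p) (MvPolynomial.aeval y p) := by
    clear hp
    induction p using MvPolynomial.induction_on with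
    | C a =>
      rw [MvPolynomial.aeval_C, MvPolynomial.aeval_C, IsScalarTower.algebraMap_apply K0 k (RatFunc k)]
      exact val_const _
    | add p q hp hq =>
      rw [map_add, map_add]
      exact HasValueAtZero.add hp hq
    | mul_X p i hp =>
      rw [map_mul, map_mul, MvPolynomial.aeval_X, MvPolynomial.aeval_X]
      exact HasValueAtZero.mul hp (h i)
  rw [hp] at key
  have h0 : HasValueAtZero (0 : RatFunc k) (0 : k) := by
    have h1 := val_const (0 : k)
    rwa [map_zero] at h1
  exact HasValueAtZero.unique key h0

end Pool.Agent.VPC
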